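import Pool.Agent.Helper93.PL.St2

/-!
# Project PL, module KB: uniformity in `x`
-/

set_option autoImplicit false

namespace Pool.Agent.Helper37.PL

open Filter Topology

private theorem finite_points (R : ℕ → ℕ → ℝ → ℝ) (L : ℝ → ℝ) (h ε : ℝ) (hh : 0 < h)
    (hε : 0 < ε)
    (hyp : ∀ x ε : ℝ, 0 < x → 0 < ε → ∃ (c : ℝ) (D₀ H₀ : ℕ), 0 < c ∧ ∀ d H : ℕ, D₀ ≤ d →
      H₀ ≤ H → (d : ℝ) ≤ (H : ℝ) ^ c → |R d H x - L x| ≤ ε) (N : ℕ) :
    ∃ (c : ℝ) (D₀ H₀ : ℕ), 0 < c ∧ ∀ d H : ℕ, D₀ ≤ d → H₀ ≤ H → (d : ℝ) ≤ (H : ℝ) ^ c →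
      ∀ i : ℕ, i < N → |R d H ((i + 1) * h) - L ((i + 1) * h)| ≤ ε := by
  induction N with
  | zero =>
    exact ⟨1, 0, 0, one_pos, fun _ _ _ _ _ i hi => absurd hi (Nat.not_lt_zero i)⟩
  | succ N ih =>
    obtain ⟨c₁, D₁, H₁, hc₁, h₁⟩ := ih
    obtain ⟨c₂, D₂, H₂, hc₂, h₂⟩ := hyp ((N + 1) * h) ε (by positivity) hε
    refine ⟨min c₁ c₂, max D₁ D₂, max (max H₁ H₂) 1, lt_min hc₁ hc₂, ?_⟩
    intro d H hd hH hdH i hi
    have hd1 : D₁ ≤ d := (le_max_left _ _).trans hd
    have hd2 : D₂ ≤ d := (le_max_right _ _).trans hd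
    have hH1 : H₁ ≤ H := ((le_max_left _ _).trans (le_max_left _ _)).trans hH
    have hH2 : H₂ ≤ H := ((le_max_right _ _).trans (le_max_left _ _)).trans hH
    have hH3 : (1 : ℝ) ≤ (H : ℝ) := by
      have : 1 ≤ H := (le_max_right _ _).trans hH
      exact_mod_cast this
    rcases Nat.lt_succ_iff_lt_or_eq.1 hi with hi' | rfl
    · exact h₁ d H hd1 hH1
        (hdH.trans (Real.rpow_le_rpow_of_exponent_le hH3 (min_le_left _ _))) i hi'
    · exact h₂ d H hd2 hH2
        (hdH.trans (Real.rpow_le_rpow_of_exponent_le hH3 (min_le_right _ _)))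

theorem hKb : Pool.Agent.Helper93.PL.StKb := by
  intro R L hR hRm hL hLm hLip hL0 hLinf hyp ε hε
  -- near zero
  have hzero : ∀ x, 0 < x → 1 - 2 * x ≤ L x := by
    intro x hx
    have h1 : ∀ᶠ y in 𝓝[>] (0 : ℝ), L y ≤ L x + 2 * x := by
      filter_upwards [Ioo_mem_nhdsGT hx] with y hy
      have h2 := hLip x y hx hy.1
      have h3 : |x - y| = x - y := abs_of_pos (by linarith [hy.2])
      rw [h3] at h2
      have h4 := (abs_le.1 h2).1
      linarith [hy.1]
    have h5 := le_of_tendsto hL0 h1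
    linarith
  -- near infinity
  obtain ⟨X, hX0, hX⟩ : ∃ X : ℝ, 0 < X ∧ L X ≤ ε / 4 := by
    have h1 : ∀ᶠ x in atTop, L x < ε / 4 := (tendsto_order.1 hLinf).2 _ (by positivity)
    obtain ⟨X, hX1, hX2⟩ := (h1.and (eventually_gt_atTop 0)).exists
    exact ⟨X, hX2, hX1.le⟩
  obtain ⟨N, hN⟩ := exists_nat_gt (8 * X / ε)
  have hN0 : (0 : ℝ) < N := lt_of_le_of_lt (by positivity) hN
  have hNX : 8 * X < N * ε := by rwa [div_lt_iff₀ hε] at hN
  set h : ℝ := X / N with hh
  have hh0 : 0 < h := by positivity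
  have hNh : N * h = X := by rw [hh]; field_simp
  have hhε : 2 * h ≤ ε / 4 := by
    rw [hh, ← mul_div_assoc, div_le_iff₀ hN0]
    linarith
  obtain ⟨c, D₀, H₀, hc, hmain⟩ := finite_points R L h (ε / 4) hh0 (by positivity) hyp N
  refine ⟨c, D₀, H₀, hc, ?_⟩
  intro d H hd hH hdH x hx
  have hp := hmain d H hd hH hdH
  have hN1 : 1 ≤ N := by exact_mod_cast hN0
  by_cases hxX : X ≤ x
  · have h1 : |R d H X - L X| ≤ ε / 4 := by
      have h2 := hp (N - 1) (by omega)
      have h3 : ((N - 1 : ℕ) : ℝ) + 1 = N := by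
        rw [Nat.cast_sub hN1, Nat.cast_one]; ring
      rwa [h3, hNh] at h2
    have h2 := hRm d H X x hxX
    have h3 := hLm X x hX0 hxX
    have h4 := (hR d H x).1
    have h5 := (hL x hx).1
    have h6 := (abs_le.1 h1).2
    rw [abs_le]
    constructor <;> linarith
  · have hxX' : x < X := not_le.1 hxX
    set i : ℕ := ⌊x / h⌋₊ with hi
    have hxh : 0 ≤ x / h := by positivity
    have hi1 : (i : ℝ) * h ≤ x := by
      have := Nat.floor_le hxh
      rwa [le_div_iff₀ hh0] at this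
    have hi2 : x < (i + 1) * h := by
      have := Nat.lt_floor_add_one (x / h)
      rwa [div_lt_iff₀ hh0] at this
    have hiN : i < N := by
      have h1 : (i : ℝ) * h < N * h := by rw [hNh]; linarith
      have h2 : (i : ℝ) < N := lt_of_mul_lt_mul_right h1 hh0.le
      exact_mod_cast h2
    have hup := (abs_le.1 (hp i hiN)).1
    have h1 := hRm d H x ((i + 1) * h) hi2.le
    have h2 := (abs_le.1 (hLip x ((i + 1) * h) hx (by positivity))).2
    have h3 : |x - (i + 1) * h| ≤ h := by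
      rw [abs_le]
      constructor <;> nlinarith
    rw [abs_le]
    constructor
    · linarith
    · rcases Nat.eq_zero_or_pos i with h0 | h0
      · have h4 := (hR d H x).2
        have h5 := hzero x hx
        rw [h0] at hi2
        have h6 : x < h := by
          have : ((0 : ℕ) : ℝ) + 1 = 1 := by norm_num
          rwa [this, one_mul] at hi2
        linarith
      · have h4 := hp (i - 1) (by omega)
        have h5 : ((i - 1 : ℕ) : ℝ) + 1 = i := by
          rw [Nat.cast_sub h0, Nat.cast_one]; ring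
        rw [h5] at h4
        have hih : 0 < (i : ℝ) * h := by
          have : (0 : ℝ) < i := by exact_mod_cast h0
          positivity
        have h6 := (abs_le.1 h4).2
        have h7 := hRm d H (i * h) x hi1
        have h8 := (abs_le.1 (hLip (i * h) x hih hx)).2
        have h9 : |(i : ℝ) * h - x| ≤ h := by
          rw [abs_le]
          constructor <;> nlinarith
        linarith

end Pool.Agent.Helper37.PL
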