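import Pool.Agent.Helper93.PL.St

set_option autoImplicit false

namespace Pool.Agent.Helper37.PL

open Finset
open Pool.Agent.Helper61.PV
open Pool.Agent.Helper93.PL

theorem prod_emb {k : ℕ} (T : Finset ℕ) (hT : #T = k) (f : ℕ → ℝ) :
    ∏ m ∈ T, f m = ∏ j : Fin k, f (T.orderEmbOfFin hT j) := by
  conv_lhs => rw [← Finset.map_orderEmbOfFin_univ T hT]
  rw [Finset.prod_map]
  rfl

theorem qs_emb {k : ℕ} (T : Finset ℕ) (hT : #T = k) (j : Fin k) :
    qs T (T.orderEmbOfFin hT j) = qd (fun j => T.orderEmbOfFin hT j) j := by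
  unfold qs qd
  symm
  refine Finset.prod_bij (fun i _ => T.orderEmbOfFin hT i) ?_ ?_ ?_ ?_
  · intro i hi
    rw [Finset.mem_filter] at hi ⊢
    exact ⟨Finset.orderEmbOfFin_mem T hT i, (T.orderEmbOfFin hT).strictMono hi.2⟩
  · intro i _ i' _ h
    exact (T.orderEmbOfFin hT).injective h
  · intro b hb
    rw [Finset.mem_filter] at hb
    have hb1 : b ∈ Set.range (T.orderEmbOfFin hT) := by
      rw [Finset.range_orderEmbOfFin]
      exact hb.1
    obtain ⟨i, hi⟩ := hb1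
    refine ⟨i, ?_, hi⟩
    rw [Finset.mem_filter]
    refine ⟨Finset.mem_univ _, ?_⟩
    have h2 := hb.2
    rw [← hi] at h2
    exact (T.orderEmbOfFin hT).lt_iff_lt.mp h2
  · intro i _
    rfl

theorem hMot (hMok : StMok) : Pool.Agent.Helper93.PL.StMot := by
  intro k W C κ δ hW hC hκ hκ1 hδ hδ1
  obtain ⟨H₀, hH₀⟩ := hMok k W C κ δ hW hC hκ hκ1 hδ hδ1
  refine ⟨H₀, ?_⟩
  intro H hH d hd hk hlog F A h hc T hT hm
  have key := hH₀ H hH d hd hk hlog F A h hc (fun j => T.orderEmbOfFin hT j)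
    (T.orderEmbOfFin hT).strictMono (fun j => hm _ (Finset.orderEmbOfFin_mem T hT j))
  have e1 : ∀ g : Fin (d + 1) → ℤ, ∏ m ∈ T, thz (ev (lin W F g) m) =
      ∏ j : Fin k, thz (ev (lin W F g) (T.orderEmbOfFin hT j)) := by
    intro g
    exact prod_emb T hT (fun m => thz (ev (lin W F g) m))
  have e2 : sg W T = ∏ j : Fin k, (((W * qd (fun j => T.orderEmbOfFin hT j) j : ℕ) : ℝ) /
      Nat.totient (W * qd (fun j => T.orderEmbOfFin hT j) j)) := by
    unfold sg
    rw [prod_emb T hT]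
    refine Finset.prod_congr rfl ?_
    intro j _
    rw [qs_emb]
  have e3 : ∑ g ∈ Bx A h, ∏ m ∈ T, thz (ev (lin W F g) m) =
      ∑ g ∈ Bx A h, ∏ j : Fin k, thz (ev (lin W F g) (T.orderEmbOfFin hT j)) :=
    Finset.sum_congr rfl (fun g _ => e1 g)
  rw [e3, e2]
  exact key

end Pool.Agent.Helper37.PL
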