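import Pool.Agent.Helper16.PL.St

/-! # PL module Num: the numerical part -/

open Finset Pool.PL

namespace Pool.Agent.Helper37.PLNum

/-- an upper bound for `(1 - 1/N)^n` -/
theorem bern (N : ℝ) (n : ℕ) (hN : 1 ≤ N) (hn : (n : ℝ) ≤ N) :
    (1 - 1 / N) ^ n ≤ 1 - n / (2 * N) := by
  have hN0 : 0 < N := by linarith
  set x : ℝ := 1 / N with hx
  have hx0 : 0 < x := by positivity
  have hx1 : x ≤ 1 := by
    rw [hx, div_le_one hN0]; exact hN
  have hs : (n : ℝ) * x ≤ 1 := by
    rw [hx, mul_one_div, div_le_one hN0]; exact hn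
  have hs0 : 0 ≤ (n : ℝ) * x := by positivity
  have h1 : (1 - x) ^ n * (1 + n * x) ≤ 1 := by
    calc (1 - x) ^ n * (1 + n * x) ≤ (1 - x) ^ n * (1 + x) ^ n := by
          apply mul_le_mul_of_nonneg_left
          · exact one_add_mul_le_pow (by linarith) n
          · exact pow_nonneg (by linarith) n
      _ = (1 - x ^ 2) ^ n := by rw [← mul_pow]; congr 1; ring
      _ ≤ 1 := pow_le_one₀ (by nlinarith) (by nlinarith [sq_nonneg x])
  have h2 : n / (2 * N) = n * x / 2 := by rw [hx]; field_simp
  rw [h2]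
  have h3 : 1 ≤ (1 - n * x / 2) * (1 + n * x) := by nlinarith
  by_contra hlt
  push Not at hlt
  have h4 : (1 - n * x / 2) * (1 + n * x) < (1 - x) ^ n * (1 + n * x) :=
    mul_lt_mul_of_pos_right hlt (by linarith)
  linarith

theorem two_pow_le_exp (n : ℕ) : (2 : ℝ) ^ n ≤ Real.exp n := by
  have h : (2 : ℝ) ≤ Real.exp 1 := by
    have := Real.add_one_le_exp (1 : ℝ)
    linarith
  calc (2 : ℝ) ^ n ≤ (Real.exp 1) ^ n := by gcongr
    _ = Real.exp n := by rw [← Real.exp_nat_mul, mul_one]

theorem one_add_pow_le (r : ℝ) (hr : 0 ≤ r) (n : ℕ) : (1 + r) ^ n ≤ Real.exp (n * r) := by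
  calc (1 + r) ^ n ≤ (Real.exp r) ^ n := by
        have := Real.add_one_le_exp r
        gcongr
        linarith
    _ = Real.exp (n * r) := by rw [← Real.exp_nat_mul]

/-- the product bound -/
theorem prod_bound {u G : ℕ → ℝ} (hG1 : ∀ h, 1 ≤ G h)
    (hstep : ∀ h, G (h + 1) ≤ (1 + u (h + 1)) * G h) (m : ℕ) :
    ∀ h, m ≤ h → G h ≤ G m * Real.exp (∑ i ∈ Ico (m + 1) (h + 1), u i) := by
  intro h hmh
  induction h, hmh using Nat.le_induction with
  | base => simp
  | succ h hmh ih =>
    rw [Finset.sum_Ico_succ_top (by omega), Real.exp_add]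
    have h1 := hstep h
    have h2 := Real.add_one_le_exp (u (h + 1))
    have h3 : 0 ≤ G h := by linarith [hG1 h]
    calc G (h + 1) ≤ (1 + u (h + 1)) * G h := h1
      _ ≤ Real.exp (u (h + 1)) * G h := by
          apply mul_le_mul_of_nonneg_right _ h3
          linarith
      _ ≤ Real.exp (u (h + 1)) * (G m * Real.exp (∑ i ∈ Ico (m + 1) (h + 1), u i)) :=
          mul_le_mul_of_nonneg_left ih (Real.exp_pos _).le
      _ = _ := by ring

theorem num (hGr : StGrow) : StNum := by
  intro t β y u U G Q ht hβ hy hu hu1 hU hu0 hβU hβU' hG0 hG1 hmono hstep hstep2 hQ0 hQ1 hQ2 h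
  set a : ℝ := 2 ^ t with ha
  have ha2 : 2 ≤ a := by
    calc (2 : ℝ) = 2 ^ 1 := by norm_num
      _ ≤ 2 ^ t := pow_le_pow_right₀ (by norm_num) ht
  have ha0 : 0 < a := by linarith
  have ha1 : 1 ≤ a := by linarith
  have hta : (t : ℝ) ≤ a := by
    rw [ha]
    exact_mod_cast (Nat.lt_two_pow_self (n := t)).le
  have ht1 : (1 : ℝ) ≤ t := by exact_mod_cast ht
  have hE : (2 : ℝ) ^ (10 * t) = a ^ 10 := by rw [ha, ← pow_mul, mul_comm]
  have hN : (2 : ℝ) ^ (12 * t) = a ^ 12 := by rw [ha, ← pow_mul, mul_comm]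
  have hE1 : 1 ≤ a ^ 10 := one_le_pow₀ ha1
  rw [hE]
  rw [hN] at hy
  have hN1 : 1 ≤ a ^ 12 := one_le_pow₀ ha1
  have hN0 : 0 < a ^ 12 := by positivity
  have hy0 : 0 ≤ y := by
    rw [hy]
    have : 1 / a ^ 12 ≤ 1 := by rw [div_le_one hN0]; exact hN1
    linarith
  have hy1 : y < 1 := by
    rw [hy]
    have : 0 < 1 / a ^ 12 := by positivity
    linarith
  have hu1' : ∀ h, u h ≤ 1 := fun h => (hu1 h).trans (pow_le_one₀ hy0 hy1.le)
  have hpb := fun m => prod_bound hG1 hstep m
  by_cases hcase : 1 / a ^ 10 ≤ β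
  · -- case 1
    have h1 : ∑ i ∈ Ico (0 + 1) (h + 1), u i ≤ U h := by
      rw [hU h, Finset.range_eq_Ico]
      exact Finset.sum_le_sum_of_subset_of_nonneg (Finset.Ico_subset_Ico (by omega) le_rfl)
        fun i _ _ => hu i
    have h2 : U h ≤ a ^ 10 := by
      have h3 := hβU h
      have h4 : 0 ≤ U h := by rw [hU h]; exact Finset.sum_nonneg fun i _ => hu i
      have h5 : 1 / a ^ 10 * U h ≤ 1 := (mul_le_mul_of_nonneg_right hcase h4).trans h3
      rw [one_div, inv_mul_le_iff₀ (by positivity)] at h5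
      linarith
    calc G h ≤ G 0 * Real.exp (∑ i ∈ Ico (0 + 1) (h + 1), u i) := hpb 0 h (Nat.zero_le _)
      _ = Real.exp (∑ i ∈ Ico (0 + 1) (h + 1), u i) := by rw [hG0, one_mul]
      _ ≤ Real.exp (300 * t * a ^ 10) := by
          apply Real.exp_le_exp.2
          nlinarith
  · -- case 2
    push Not at hcase
    -- lower bound for U
    have hUl : ∀ m : ℕ, ((m : ℝ) + 1) ≤ a ^ 12 → ((m : ℝ) + 1) / (2 * a ^ 2) ≤ U m := by
      intro m hm
      have h1 := bern (a ^ 12) (m + 1) hN1 (by push_cast; exact hm)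
      rw [← hy] at h1
      have h2 := hβU' m
      have h4 : 0 ≤ U m := by rw [hU m]; exact Finset.sum_nonneg fun i _ => hu i
      have h5 : β * U m ≤ 1 / a ^ 10 * U m := mul_le_mul_of_nonneg_right hcase.le h4
      have h6 : ((m : ℝ) + 1) / (2 * a ^ 12) ≤ 1 / a ^ 10 * U m := by
        push_cast at h1
        linarith
      have h7 : ((m : ℝ) + 1) / (2 * a ^ 2) = a ^ 10 * (((m : ℝ) + 1) / (2 * a ^ 12)) := by
        field_simp
      rw [h7]
      calc a ^ 10 * (((m : ℝ) + 1) / (2 * a ^ 12)) ≤ a ^ 10 * (1 / a ^ 10 * U m) := by gcongr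
        _ = U m := by field_simp
    -- the block estimate
    have hblock : ∀ j : ℕ, j ≤ 3 * t → ∀ h, 16 ^ j - 1 ≤ h →
        G h ≤ G (16 ^ j - 1) * (1 + ((2 : ℝ) ^ j) ^ 5 / (8 * a)) *
          (1 + 8 * a / 2 ^ j) ^ (h - (16 ^ j - 1)) := by
      intro j hj h hh
      set b : ℝ := 2 ^ j with hb
      have hb0 : 0 < b := by positivity
      have hba : b ≤ a ^ 3 := by
        rw [ha, ← pow_mul, hb]
        exact pow_le_pow_right₀ (by norm_num) (by omega)
      obtain ⟨m, hm⟩ : ∃ m, 16 ^ j = m + 1 :=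
        ⟨16 ^ j - 1, by have : 0 < 16 ^ j := by positivity
                        omega⟩
      have hm1 : 16 ^ j - 1 = m := by omega
      rw [hm1] at hh ⊢
      have hmb : (m : ℝ) + 1 = b ^ 4 := by
        have : ((16 ^ j : ℕ) : ℝ) = ((m + 1 : ℕ) : ℝ) := by rw [hm]
        push_cast at this
        rw [← this, hb, ← pow_mul, mul_comm, pow_mul]
        norm_num
      have hGm : 1 ≤ G m := hG1 m
      set r : ℝ := 8 * a / b with hr
      have hr0 : 0 < r := by positivity
      have hr2 : r ^ 2 = 64 * a ^ 2 / b ^ 2 := by rw [hr]; field_simp; ring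
      -- bound for Q
      have hQb : ∀ h k, m ≤ h → m ≤ k → k < h → Q (h + 1) (k + 1) ≤ r ^ 2 := by
        intro h k _ hk1 hk2
        rcases Nat.eq_zero_or_pos j with hj0 | hj0
        · have hb1 : b = 1 := by rw [hb, hj0, pow_zero]
          have h1 : Q (h + 1) (k + 1) ≤ 1 := by
            refine (hQ1 _ _).trans ?_
            calc u (h + 1) * u (k + 1) ≤ 1 * 1 :=
                  mul_le_mul (hu1' _) (hu1' _) (hu _) (by norm_num)
              _ = 1 := by norm_num
          rw [hr2, hb1]
          have : 1 ≤ a ^ 2 := one_le_pow₀ ha1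
          linarith
        · have h16 : 16 ≤ 16 ^ j := by
            calc 16 = 16 ^ 1 := by norm_num
              _ ≤ 16 ^ j := Nat.pow_le_pow_right (by norm_num) hj0
          have h1 := hQ2 (h + 1) (k + 1) m (by omega) (by omega) (by omega)
          have h2 : Real.sqrt ((m : ℝ) + 1) = b ^ 2 := by
            rw [hmb, show b ^ 4 = (b ^ 2) ^ 2 by ring]
            exact Real.sqrt_sq (by positivity)
          rw [h2] at h1
          have h3 : b ^ 4 / (2 * a ^ 2) ≤ U m := by
            have h4 := hUl m (by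
              rw [hmb]
              calc b ^ 4 ≤ (a ^ 3) ^ 4 := by gcongr
                _ = a ^ 12 := by ring)
            rwa [hmb] at h4
          have h4 : Q (h + 1) (k + 1) * (b ^ 4 / (2 * a ^ 2)) ≤ 32 * b ^ 2 :=
            (mul_le_mul_of_nonneg_left h3 (hQ0 _ _)).trans h1
          rw [hr2]
          have h5 : Q (h + 1) (k + 1) = Q (h + 1) (k + 1) * (b ^ 4 / (2 * a ^ 2)) *
              ((2 * a ^ 2) / b ^ 4) := by field_simp
          rw [h5]
          calc Q (h + 1) (k + 1) * (b ^ 4 / (2 * a ^ 2)) * ((2 * a ^ 2) / b ^ 4)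
              ≤ 32 * b ^ 2 * ((2 * a ^ 2) / b ^ 4) := by gcongr
            _ = 64 * a ^ 2 / b ^ 2 := by field_simp; ring
      have hQb1 : ∀ h k, Q h k ≤ 1 := by
        intro h k
        refine (hQ1 _ _).trans ?_
        calc u h * u k ≤ 1 * 1 := mul_le_mul (hu1' _) (hu1' _) (hu _) (by norm_num)
          _ = 1 := by norm_num
      have hrec : ∀ h, m ≤ h → G (h + 1) ≤ G h + b ^ 4 * G m + r ^ 2 * ∑ k ∈ Ico m h, G k := by
        intro h hmh
        have h1 := hstep2 h
        have h2 : ∑ k ∈ range h, Q (h + 1) (k + 1) * G k =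
            ∑ k ∈ Ico 0 m, Q (h + 1) (k + 1) * G k + ∑ k ∈ Ico m h, Q (h + 1) (k + 1) * G k := by
          rw [Finset.range_eq_Ico, Finset.sum_Ico_consecutive _ (Nat.zero_le _) hmh]
        have h3 : ∑ k ∈ Ico 0 m, Q (h + 1) (k + 1) * G k ≤ m * G m := by
          calc ∑ k ∈ Ico 0 m, Q (h + 1) (k + 1) * G k ≤ ∑ k ∈ Ico 0 m, G m := by
                refine Finset.sum_le_sum fun k hk => ?_
                have hk' : k ≤ m := (Finset.mem_Ico.1 hk).2.le
                calc Q (h + 1) (k + 1) * G k ≤ 1 * G m :=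
                      mul_le_mul (hQb1 _ _) (hmono hk') (by linarith [hG1 k]) (by norm_num)
                  _ = G m := one_mul _
            _ = m * G m := by simp
        have h4 : ∑ k ∈ Ico m h, Q (h + 1) (k + 1) * G k ≤ r ^ 2 * ∑ k ∈ Ico m h, G k := by
          rw [Finset.mul_sum]
          refine Finset.sum_le_sum fun k hk => ?_
          have hk' := Finset.mem_Ico.1 hk
          exact mul_le_mul_of_nonneg_right (hQb h k hmh hk'.1 hk'.2) (by linarith [hG1 k])
        have h5 : u (h + 1) ≤ G m := (hu1' _).trans hGm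
        rw [← hmb]
        nlinarith
      have h1 := hGr G (b ^ 4 * G m) r m (by linarith) (by positivity) hr0 hrec h hh
      refine h1.trans (le_of_eq ?_)
      congr 1
      rw [hr]
      field_simp
    -- iteration over the scales
    have hchain : ∀ j : ℕ, j ≤ 3 * t → G (16 ^ j - 1) ≤ Real.exp (26 * j * a ^ 10) := by
      intro j
      induction j with
      | zero => intro _; simp [hG0]
      | succ j ih =>
        intro hj
        have h1 := hblock j (by omega) (16 ^ (j + 1) - 1)
          (by have : 16 ^ j ≤ 16 ^ (j + 1) := Nat.pow_le_pow_right (by norm_num) (by omega)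
              omega)
        have h2 := ih (by omega)
        set b : ℝ := 2 ^ j with hb
        have hb0 : 0 < b := by positivity
        have hba : 2 * b ≤ a ^ 3 := by
          have : 2 * b = 2 ^ (j + 1) := by rw [hb]; ring
          rw [this, ha, ← pow_mul]
          exact pow_le_pow_right₀ (by norm_num) (by omega)
        have e1 : (16 ^ (j + 1) - 1) - (16 ^ j - 1) = 15 * 16 ^ j := by
          have : 0 < 16 ^ j := by positivity
          rw [pow_succ]
          omega
        rw [e1] at h1
        have h3 : (1 + 8 * a / b) ^ (15 * 16 ^ j) ≤ Real.exp (15 * a ^ 10) := by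
          refine (one_add_pow_le _ (by positivity) _).trans (Real.exp_le_exp.2 ?_)
          have h16 : ((16 ^ j : ℕ) : ℝ) = b ^ 4 := by
            push_cast
            rw [hb, ← pow_mul, mul_comm, pow_mul]
            norm_num
          rw [Nat.cast_mul, h16]
          have h4 : b ^ 3 ≤ (a ^ 3 / 2) ^ 3 := by
            gcongr
            linarith
          calc ((15 : ℕ) : ℝ) * b ^ 4 * (8 * a / b) = 120 * a * b ^ 3 := by
                push_cast; field_simp; ring
            _ ≤ 120 * a * (a ^ 3 / 2) ^ 3 := by gcongr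
            _ = 15 * a ^ 10 := by ring
        have h5 : 1 + b ^ 5 / (8 * a) ≤ Real.exp (11 * a ^ 10) := by
          have h6 : b ^ 5 / (8 * a) ≤ a ^ 14 / 256 := by
            have h7 : b ^ 5 ≤ (a ^ 3 / 2) ^ 5 := by
              gcongr
              linarith
            calc b ^ 5 / (8 * a) ≤ (a ^ 3 / 2) ^ 5 / (8 * a) := by gcongr
              _ = a ^ 14 / 256 := by field_simp; ring
          have h8 : 1 + a ^ 14 / 256 ≤ a ^ 15 := by
            have : 1 ≤ a ^ 14 := one_le_pow₀ ha1
            calc 1 + a ^ 14 / 256 ≤ 2 * a ^ 14 := by linarith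
              _ ≤ a * a ^ 14 := by gcongr
              _ = a ^ 15 := by ring
          have h9 : a ^ 15 ≤ Real.exp (15 * t) := by
            have := two_pow_le_exp (t * 15)
            rw [ha, ← pow_mul]
            refine this.trans (le_of_eq ?_)
            push_cast; ring_nf
          have h10 : 15 * (t : ℝ) ≤ 11 * a ^ 10 := by
            have : 512 ≤ a ^ 9 := by
              calc (512 : ℝ) = 2 ^ 9 := by norm_num
                _ ≤ a ^ 9 := by gcongr
            calc 15 * (t : ℝ) ≤ 15 * a := by gcongr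
              _ ≤ 11 * (a * 512) := by linarith
              _ ≤ 11 * (a * a ^ 9) := by gcongr
              _ = 11 * a ^ 10 := by ring
          calc 1 + b ^ 5 / (8 * a) ≤ 1 + a ^ 14 / 256 := by linarith
            _ ≤ a ^ 15 := h8
            _ ≤ Real.exp (15 * t) := h9
            _ ≤ Real.exp (11 * a ^ 10) := Real.exp_le_exp.2 h10
        have hGp : 0 ≤ G (16 ^ j - 1) := by linarith [hG1 (16 ^ j - 1)]
        calc G (16 ^ (j + 1) - 1) ≤ G (16 ^ j - 1) * (1 + b ^ 5 / (8 * a)) *
              (1 + 8 * a / b) ^ (15 * 16 ^ j) := h1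
          _ ≤ Real.exp (26 * j * a ^ 10) * Real.exp (11 * a ^ 10) * Real.exp (15 * a ^ 10) := by
              gcongr
          _ = Real.exp (26 * (j + 1 : ℕ) * a ^ 10) := by
              rw [← Real.exp_add, ← Real.exp_add]
              congr 1
              push_cast
              ring
    -- the last block
    obtain ⟨m, hm⟩ : ∃ m, 16 ^ (3 * t) = m + 1 :=
      ⟨16 ^ (3 * t) - 1, by have : 0 < 16 ^ (3 * t) := by positivity
                            omega⟩
    have hm1 : 16 ^ (3 * t) - 1 = m := by omega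
    have hmN : (m : ℝ) + 1 = a ^ 12 := by
      have : ((16 ^ (3 * t) : ℕ) : ℝ) = ((m + 1 : ℕ) : ℝ) := by rw [hm]
      push_cast at this
      rw [← this, ha, ← pow_mul, show (16 : ℝ) = 2 ^ 4 by norm_num, ← pow_mul]
      congr 1
      ring
    have hlast := hblock (3 * t) le_rfl
    have hcl := hchain (3 * t) le_rfl
    rw [hm1] at hlast hcl
    have hb3 : (2 : ℝ) ^ (3 * t) = a ^ 3 := by rw [ha, ← pow_mul, mul_comm]
    rw [hb3] at hlast
    set H : ℕ := m + 10 * t * (m + 1) with hH
    have hGH : G H ≤ Real.exp (172 * t * a ^ 10) := by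
      have h1 := hlast H (by omega)
      have e1 : H - m = 10 * t * (m + 1) := by omega
      rw [e1] at h1
      have h2 : (1 + 8 * a / a ^ 3) ^ (10 * t * (m + 1)) ≤ Real.exp (80 * t * a ^ 10) := by
        refine (one_add_pow_le _ (by positivity) _).trans (Real.exp_le_exp.2 (le_of_eq ?_))
        push_cast
        rw [hmN]
        field_simp
        ring
      have h3 : 1 + (a ^ 3) ^ 5 / (8 * a) ≤ Real.exp (14 * t * a ^ 10) := by
        have h4 : 1 + (a ^ 3) ^ 5 / (8 * a) ≤ a ^ 14 := by
          have h5 : (a ^ 3) ^ 5 / (8 * a) = a ^ 14 / 8 := by field_simp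
          have h6 : 16384 ≤ a ^ 14 := by
            calc (16384 : ℝ) = 2 ^ 14 := by norm_num
              _ ≤ a ^ 14 := by gcongr
          rw [h5]
          linarith
        have h9 : a ^ 14 ≤ Real.exp (14 * t) := by
          have := two_pow_le_exp (t * 14)
          rw [ha, ← pow_mul]
          refine this.trans (le_of_eq ?_)
          push_cast; ring_nf
        refine h4.trans (h9.trans (Real.exp_le_exp.2 ?_))
        calc 14 * (t : ℝ) = 14 * t * 1 := by ring
          _ ≤ 14 * t * a ^ 10 := by gcongr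
      have hGp : 0 ≤ G m := by linarith [hG1 m]
      calc G H ≤ G m * (1 + (a ^ 3) ^ 5 / (8 * a)) *
            (1 + 8 * a / a ^ 3) ^ (10 * t * (m + 1)) := h1
        _ ≤ Real.exp (26 * (3 * t : ℕ) * a ^ 10) * Real.exp (14 * t * a ^ 10) *
            Real.exp (80 * t * a ^ 10) := by gcongr
        _ = Real.exp (172 * t * a ^ 10) := by
            rw [← Real.exp_add, ← Real.exp_add]
            congr 1
            push_cast
            ring
    rcases le_total h H with hh | hh
    · calc G h ≤ G H := hmono hh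
        _ ≤ Real.exp (172 * t * a ^ 10) := hGH
        _ ≤ Real.exp (300 * t * a ^ 10) := by
            apply Real.exp_le_exp.2
            gcongr
            norm_num
    · have h1 := hpb H h hh
      have h2 : ∑ i ∈ Ico (H + 1) (h + 1), u i ≤ a ^ 2 := by
        have h3 : ∑ i ∈ Ico (H + 1) (h + 1), u i ≤ ∑ i ∈ Ico (H + 1) (h + 1), y ^ i :=
          Finset.sum_le_sum fun i _ => hu1 i
        have h4 := geom_sum_Ico_le_of_lt_one (m := H + 1) (n := h + 1) hy0 hy1
        have h5 : 1 - y = 1 / a ^ 12 := by rw [hy]; ring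
        have h6 : y ^ (m + 1) ≤ 1 / 2 := by
          have h7 := bern (a ^ 12) (m + 1) hN1 (by push_cast; exact hmN.le)
          rw [← hy] at h7
          push_cast at h7
          rw [hmN] at h7
          refine h7.trans (le_of_eq ?_)
          field_simp
          ring
        have h8 : y ^ (H + 1) ≤ 1 / a ^ 10 := by
          calc y ^ (H + 1) ≤ y ^ ((m + 1) * (10 * t)) :=
                pow_le_pow_of_le_one hy0 hy1.le (by rw [hH]; nlinarith)
            _ = (y ^ (m + 1)) ^ (10 * t) := by rw [pow_mul]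
            _ ≤ (1 / 2) ^ (10 * t) := by gcongr
            _ = 1 / a ^ 10 := by rw [← hE, one_div_pow]
        calc _ ≤ _ := h3
          _ ≤ y ^ (H + 1) / (1 - y) := h4
          _ ≤ (1 / a ^ 10) / (1 / a ^ 12) := by rw [h5]; gcongr
          _ = a ^ 2 := by field_simp
      have h3 : a ^ 2 ≤ t * a ^ 10 := by
        calc a ^ 2 ≤ a ^ 10 := pow_le_pow_right₀ ha1 (by norm_num)
          _ = 1 * a ^ 10 := by ring
          _ ≤ t * a ^ 10 := by gcongr
      have hGp : 0 ≤ G H := by linarith [hG1 H]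
      calc G h ≤ G H * Real.exp (∑ i ∈ Ico (H + 1) (h + 1), u i) := h1
        _ ≤ Real.exp (172 * t * a ^ 10) * Real.exp (a ^ 2) := by gcongr
        _ = Real.exp (172 * t * a ^ 10 + a ^ 2) := by rw [Real.exp_add]
        _ ≤ Real.exp (300 * t * a ^ 10) := by
            apply Real.exp_le_exp.2
            have : 0 ≤ (t : ℝ) * a ^ 10 := by positivity
            nlinarith

end Pool.Agent.Helper37.PLNum
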